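import Pool.Agent.Helper18.SV.Goals

/-!
# Packet SV-BND (MP_cb0067_co): the bound for progressions in `ZMod d`
-/

set_option autoImplicit false

open Finset
open scoped Pointwise

namespace Pool.Agent.Helper79.SV

open Pool.Agent.Helper95.SF
open Pool.Agent.Helper18.SV

/-- two different points of the path -/
lemma diff_ne {G : Type*} [AddCommGroup G] {s c : ℕ} {x y : G} (hc : 1 ≤ c)
    (hcr : ∀ e : ℕ, 1 ≤ e → e ≤ s → ∀ i : ℤ, -((s : ℤ) * (c - 1)) ≤ i →
        i ≤ ((s : ℤ) - e) * (c - 1) → e • x ≠ i • y) {i i' : ℕ} (hii : i' < i) (his : i ≤ s)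
    {l l' : ℕ} (hl : l ≤ (min i ((s + 1) / 2) + min (s - i) (s / 2)) * (c - 1))
    (hl' : l' ≤ (min i' ((s + 1) / 2) + min (s - i') (s / 2)) * (c - 1)) :
    (((min i ((s + 1) / 2) : ℕ) : ℤ) - (min (s - i) (s / 2) : ℕ)) • x +
      ((l : ℤ) - (min (s - i) (s / 2) : ℕ) * ((c : ℤ) - 1)) • y ≠
    (((min i' ((s + 1) / 2) : ℕ) : ℤ) - (min (s - i') (s / 2) : ℕ)) • x +
      ((l' : ℤ) - (min (s - i') (s / 2) : ℕ) * ((c : ℤ) - 1)) • y := by
  set J := min i ((s + 1) / 2) with hJ
  set K := min (s - i) (s / 2) with hK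
  set J' := min i' ((s + 1) / 2) with hJ'
  set K' := min (s - i') (s / 2) with hK'
  intro h
  have h1 : J' + K < J + K' := by omega
  have h2 : J + K' ≤ s := by omega
  obtain ⟨C, rfl⟩ : ∃ C : ℕ, c = C + 1 := ⟨c - 1, by omega⟩
  simp only [Nat.add_sub_cancel] at hl hl'
  push_cast at h hcr
  simp only [add_sub_cancel_right] at h hcr
  have hlz : (l : ℤ) ≤ ((J : ℤ) + K) * C := by exact_mod_cast hl
  have hlz' : (l' : ℤ) ≤ ((J' : ℤ) + K') * C := by exact_mod_cast hl'
  have h0 : (0 : ℤ) ≤ l := by positivity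
  have h0' : (0 : ℤ) ≤ l' := by positivity
  have h2z : ((J : ℤ) + K') * C ≤ s * C := by exact_mod_cast Nat.mul_le_mul_right C h2
  have he : ((J + K' - (J' + K) : ℕ) : ℤ) = (J : ℤ) + K' - (J' + K) := by omega
  apply hcr (J + K' - (J' + K)) (by omega) (by omega)
    (((l' : ℤ) - K' * C) - ((l : ℤ) - K * C))
  · nlinarith
  · rw [he]; nlinarith
  · rw [← natCast_zsmul, he]
    have h3 : ((J : ℤ) + K' - (J' + K)) • x = (((J : ℤ) - K) • x) - (((J' : ℤ) - K') • x) := by
      rw [← sub_smul]; congr 1; ring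
    rw [h3, sub_smul ((l' : ℤ) - K' * C)]
    rw [sub_eq_sub_iff_add_eq_add, h]
    abel

theorem t (hcrit : G_CRIT.{0}) : G_BND := by
  rintro s d c hs hd hc ⟨x, y, hcard, hfree⟩
  have : NeZero d := ⟨by omega⟩
  have hcr := (hcrit (ZMod d) s c x y hc).1 hfree
  set N := addOrderOf y with hN
  have hNpos : 0 < N := addOrderOf_pos y
  have hcN : c ≤ N := by
    by_contra hlt
    push Not at hlt
    have hinj := Finset.card_image_iff.1 (show ((Finset.range c).image
      (fun i : ℕ => x + i • y)).card = (Finset.range c).card by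
        rw [Finset.card_range]; exact hcard)
    have h0 := hinj (show N ∈ ((Finset.range c : Finset ℕ) : Set ℕ) by simpa using hlt)
      (show 0 ∈ ((Finset.range c : Finset ℕ) : Set ℕ) by simpa using (by omega : 0 < c))
      (by
        show x + N • y = x + 0 • y
        rw [hN, addOrderOf_nsmul_eq_zero, zero_smul])
    omega
  by_cases hbig : s * (c - 1) + 1 ≤ N
  · right
    classical
    let P : Finset (Σ _ : ℕ, ℕ) := (Finset.range (s + 1)).sigma (fun i =>
      Finset.range ((min i ((s + 1) / 2) + min (s - i) (s / 2)) * (c - 1) + 1))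
    have hP : P.card = T s * (c - 1) + (s + 1) := by
      show ((Finset.range (s + 1)).sigma _).card = _
      rw [Finset.card_sigma]
      simp only [Finset.card_range]
      rw [Finset.sum_add_distrib, ← Finset.sum_mul, sum_T]
      simp
    rw [← hP]
    have hle : P.card ≤ (Finset.univ : Finset (ZMod d)).card := by
      apply Finset.card_le_card_of_injOn (fun p : (Σ _ : ℕ, ℕ) =>
        (((min p.1 ((s + 1) / 2) : ℕ) : ℤ) - (min (s - p.1) (s / 2) : ℕ)) • x +
          ((p.2 : ℤ) - (min (s - p.1) (s / 2) : ℕ) * ((c : ℤ) - 1)) • y)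
        (fun _ _ => Finset.mem_coe.2 (Finset.mem_univ _))
      rintro ⟨i, l⟩ hp ⟨i', l'⟩ hp' h
      simp only [P, Finset.coe_sigma, Set.mem_sigma_iff, Finset.mem_coe, Finset.mem_range] at hp hp'
      simp only at h
      rcases lt_trichotomy i' i with hlt | heq | hgt
      · exact absurd h (diff_ne hc hcr hlt (by omega) (by omega) (by omega))
      · subst heq
        have h1 := add_left_cancel h
        have h2 : ((l : ℤ) - l') • y = 0 := by
          rw [sub_smul, sub_smul, sub_left_inj] at h1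
          rw [sub_smul, h1, sub_self]
        have h3 := addOrderOf_dvd_iff_zsmul_eq_zero.2 h2
        have h4 : min i' ((s + 1) / 2) + min (s - i') (s / 2) ≤ s := by omega
        have h5 := Nat.mul_le_mul_right (c - 1) h4
        have h6 : (l : ℤ) - l' = 0 := by
          apply Int.eq_zero_of_abs_lt_dvd h3
          rw [abs_lt]
          constructor <;> omega
        have h7 : l = l' := by omega
        rw [h7]
      · exact absurd h.symm (diff_ne hc hcr hgt (by omega) (by omega) (by omega))
    rwa [Finset.card_univ, ZMod.card] at hle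
  · left
    push Not at hbig
    let Y : AddSubgroup (ZMod d) := AddSubgroup.zmultiples y
    have hYc : Nat.card Y = N := Nat.card_zmultiples y
    have hGc : Nat.card (ZMod d) = d := by rw [Nat.card_eq_fintype_card, ZMod.card]
    have hq : Nat.card (ZMod d) = Nat.card (ZMod d ⧸ Y) * Nat.card Y :=
      AddSubgroup.card_eq_card_quotient_mul_card_addSubgroup Y
    rw [hGc, hYc] at hq
    have : Finite (ZMod d ⧸ Y) := inferInstance
    set m := addOrderOf ((x : ZMod d) : ZMod d ⧸ Y) with hm
    have hmpos : 0 < m := addOrderOf_pos _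
    have hmd : m ∣ Nat.card (ZMod d ⧸ Y) := addOrderOf_dvd_natCard _
    have hqpos : 0 < Nat.card (ZMod d ⧸ Y) := Nat.card_pos
    have hmle : m ≤ Nat.card (ZMod d ⧸ Y) := Nat.le_of_dvd hqpos hmd
    refine ⟨m, ?_, ?_, ?_⟩
    · rw [hq]; exact Dvd.dvd.mul_right hmd _
    · by_contra hms
      push Not at hms
      have h1 : m • x ∈ Y := by
        have h2 := addOrderOf_nsmul_eq_zero ((x : ZMod d) : ZMod d ⧸ Y)
        rw [← hm] at h2
        rw [← QuotientAddGroup.mk_nsmul, QuotientAddGroup.eq_zero_iff] at h2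
        exact h2
      obtain ⟨i0, hi0⟩ := AddSubgroup.mem_zmultiples_iff.1 h1
      have hNz : (0 : ℤ) < N := by exact_mod_cast hNpos
      have e1 := Int.emod_nonneg (i0 + (s : ℤ) * (c - 1)) hNz.ne'
      have e2 := Int.emod_lt_of_pos (i0 + (s : ℤ) * (c - 1)) hNz
      have e3 := Int.emod_add_mul_ediv (i0 + (s : ℤ) * (c - 1)) N
      have hbz : (N : ℤ) < s * ((c : ℤ) - 1) + 1 := by
        have : ((s * (c - 1) + 1 : ℕ) : ℤ) = s * ((c : ℤ) - 1) + 1 := by
          push_cast [Nat.cast_sub hc]; ring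
        rw [← this]; exact_mod_cast hbig
      have hnn : (0 : ℤ) ≤ ((s : ℤ) - m) * ((c : ℤ) - 1) := by
        apply mul_nonneg
        · have : (m : ℤ) ≤ s := by exact_mod_cast hms
          linarith
        · have : (1 : ℤ) ≤ c := by exact_mod_cast hc
          linarith
      apply hcr m hmpos hms ((i0 + (s : ℤ) * (c - 1)) % N - s * (c - 1))
      · linarith
      · linarith
      · rw [← hi0]
        have h5 : (i0 + (s : ℤ) * (c - 1)) % N - s * (c - 1) =
            i0 - (N : ℤ) * ((i0 + (s : ℤ) * (c - 1)) / N) := by linarith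
        rw [h5, sub_smul, mul_comm, mul_smul, natCast_zsmul, hN, addOrderOf_nsmul_eq_zero,
          smul_zero, sub_zero]
    · rw [hq, mul_comm]
      exact Nat.mul_le_mul hmle hcN

end Pool.Agent.Helper79.SV
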