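import Pool.Agent.Helper2.SV.GoalsP

/-!
# Packet SV-MI: minimal imperfect sets
-/

set_option autoImplicit false

namespace Pool.Agent.Helper79.SV

open Pool.Agent.Helper2.SV

variable {V : Type}

lemma exists_minImp [Finite V] (G : SimpleGraph V) (M : Set V) (hM : ¬ Perf G M) :
    ∃ Q ⊆ M, MinImp G Q := by
  classical
  have hfin : Set.Finite {Q : Set V | Q ⊆ M ∧ ¬ Perf G Q} := Set.toFinite _
  obtain ⟨Q, hQ⟩ := hfin.exists_minimal ⟨M, le_rfl, hM⟩
  refine ⟨Q, hQ.prop.1, hQ.prop.2, fun Q' hQ' => ?_⟩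
  by_contra h
  have := hQ.le_of_le (y := Q') ⟨hQ'.subset.trans hQ.prop.1, h⟩ hQ'.subset
  exact hQ'.2 this

lemma exists_n [Finite V] {G : SimpleGraph V} {Q : Set V} (hQ : MinImp G Q) :
    ∃ n, OmLe G Q n ∧ ¬ Col G Q n := by
  classical
  by_contra hcon
  push Not at hcon
  refine hQ.1 ?_
  intro X hX n hn
  by_cases h : X = Q
  · subst h
    exact hcon n hn
  · exact hQ.2 X (hX.ssubset_of_ne h) X le_rfl n hn

/-- (a) -/
lemma step_a [Finite V] {G : SimpleGraph V} {Q : Set V} (hQ : MinImp G Q) {n : ℕ}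
    (hc : ¬ Col G Q n) (I : Set V) (hI : I.Nonempty) (hIQ : I ⊆ Q)
    (hst : ∀ x ∈ I, ∀ y ∈ I, ¬ G.Adj x y) :
    ∃ K : Finset V, (↑K : Set V) ⊆ Q \ I ∧ Clq G ↑K ∧ n ≤ K.card := by
  classical
  by_contra hcon
  push Not at hcon
  have hn1 : 1 ≤ n := by
    have := hcon ∅ (by simp) (by simpa using clq_empty G)
    rw [Finset.card_empty] at this
    omega
  have hss : Q \ I ⊂ Q := by
    obtain ⟨i, hi⟩ := hI
    refine ⟨Set.sdiff_subset, fun h => ?_⟩
    exact (h (hIQ hi)).2 hi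
  have hom : OmLe G (Q \ I) (n - 1) := by
    intro K hK hKc
    have := hcon K hK hKc
    omega
  obtain ⟨f, hf1, hf2⟩ := hQ.2 _ hss _ le_rfl _ hom
  refine hc ⟨fun x => if x ∈ I then n - 1 else f x, ?_, ?_⟩
  · intro x hx
    by_cases hxI : x ∈ I
    · simp only [hxI, if_true]
      omega
    · simp only [hxI, if_false]
      have := hf1 x ⟨hx, hxI⟩
      omega
  · intro x hx y hy hxy
    by_cases hxI : x ∈ I
    · by_cases hyI : y ∈ I
      · exact absurd hxy (hst x hxI y hyI)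
      · simp only [hxI, hyI, if_true, if_false]
        have := hf1 y ⟨hy, hyI⟩
        omega
    · by_cases hyI : y ∈ I
      · simp only [hxI, hyI, if_true, if_false]
        have := hf1 x ⟨hx, hxI⟩
        omega
      · simp only [hxI, hyI, if_false]
        exact hf2 x ⟨hx, hxI⟩ y ⟨hy, hyI⟩ hxy

lemma ssub_diff {Q : Set V} {r : V} (hr : r ∈ Q) : Q \ {r} ⊂ Q :=
  ⟨Set.sdiff_subset, fun h => (h hr).2 rfl⟩

lemma dom [Finite V] {G : SimpleGraph V} {Q : Set V} (hQ : MinImp G Q) {r s : V} (hr : r ∈ Q)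
    (hs : s ∈ Q) (hrs : G.Adj r s) : ∃ t ∈ Q, G.Adj r t ∧ t ≠ s ∧ ¬ G.Adj s t := by
  classical
  by_contra hcon
  push Not at hcon
  obtain ⟨n, hn, hc⟩ := exists_n hQ
  obtain ⟨f, hf1, hf2⟩ := hQ.2 _ (ssub_diff hr) _ le_rfl n (hn.mono Set.sdiff_subset)
  have hsr : s ≠ r := fun h => G.loopless.irrefl r (by simpa [h] using hrs)
  set I : Set V := {t | t ∈ Q \ {r} ∧ f t = f s} with hI
  have hsI : s ∈ I := ⟨⟨hs, hsr⟩, rfl⟩
  have hIst : ∀ x ∈ I, ∀ y ∈ I, ¬ G.Adj x y := by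
    intro x hx y hy hxy
    exact hf2 x hx.1 y hy.1 hxy (hx.2.trans hy.2.symm)
  obtain ⟨K, hK, hKc, hKn⟩ := step_a hQ hc I ⟨s, hsI⟩ (fun x hx => hx.1.1) hIst
  by_cases hrK : r ∈ K
  · -- K ∪ {s} is a clique
    have hsK : s ∉ K := fun h => (hK (by simpa using h)).2 hsI
    have hcl : Clq G (↑(insert s K) : Set V) := by
      rw [Finset.coe_insert]
      refine hKc.insert ?_
      intro x hx hxs
      by_cases hxr : x = r
      · rw [hxr]
        exact hrs.symm
      · have hrx : G.Adj r x := hKc r (by simpa using hrK) x hx (Ne.symm hxr)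
        exact hcon x (hK hx).1 hrx hxs
    have hsub : (↑(insert s K) : Set V) ⊆ Q := by
      rw [Finset.coe_insert]
      rintro x (rfl | hx)
      · exact hs
      · exact (hK hx).1
    have := hn _ hsub hcl
    rw [Finset.card_insert_of_notMem hsK] at this
    omega
  · -- the colours of K are all different
    have hinj : Set.InjOn f (↑K : Set V) := by
      intro x hx y hy hxy
      by_contra hne
      have hxr : x ≠ r := fun h => hrK (by simpa [h] using hx)
      have hyr : y ≠ r := fun h => hrK (by simpa [h] using hy)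
      exact hf2 x ⟨(hK hx).1, hxr⟩ y ⟨(hK hy).1, hyr⟩ (hKc x hx y hy hne) hxy
    have himg : K.image f ⊆ Finset.range n := by
      intro c hc'
      rw [Finset.mem_image] at hc'
      obtain ⟨x, hx, rfl⟩ := hc'
      have hxr : x ≠ r := fun h => hrK (by simpa [h] using hx)
      exact Finset.mem_range.2 (hf1 x ⟨(hK (by simpa using hx)).1, hxr⟩)
    have hcard : (K.image f).card = K.card := Finset.card_image_of_injOn hinj
    have heq : K.image f = Finset.range n := by
      apply Finset.eq_of_subset_of_card_le himg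
      rw [hcard, Finset.card_range]
      exact hKn
    have hfs : f s ∈ K.image f := by
      rw [heq]
      exact Finset.mem_range.2 (hf1 s ⟨hs, hsr⟩)
    rw [Finset.mem_image] at hfs
    obtain ⟨x, hx, hxs⟩ := hfs
    have hxr : x ≠ r := fun h => hrK (by simpa [h] using hx)
    exact (hK (by simpa using hx)).2 ⟨⟨(hK (by simpa using hx)).1, hxr⟩, hxs⟩

lemma simp' (hGLUE : G_GLUE) [Finite V] {G : SimpleGraph V} {Q : Set V} (hQ : MinImp G Q) {s : V}
    (hs : s ∈ Q) : ¬ Clq G {x | x ∈ Q ∧ G.Adj s x} := by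
  classical
  intro hcl
  have h1 : Perf G (Q \ {s}) := hQ.2 _ (ssub_diff hs)
  have h2 : Perf G (insert s (Q \ {s})) := by
    refine hGLUE.2.2 V G _ s h1 (hcl.mono ?_)
    rintro x ⟨hx, hx'⟩
    exact ⟨hx.1, hx'⟩
  have h3 : insert s (Q \ {s}) = Q := by
    ext x
    simp only [Set.mem_insert_iff, Set.mem_sdiff, Set.mem_singleton_iff]
    constructor
    · rintro (rfl | hx)
      · exact hs
      · exact hx.1
    · intro hx
      by_cases h : x = s
      · exact Or.inl h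
      · exact Or.inr ⟨hx, h⟩
  rw [h3] at h2
  exact hQ.1 h2

lemma prime' (hSUB : G_SUB) [Finite V] {G : SimpleGraph V} {Q : Set V} (hQ : MinImp G Q)
    {H : Set V} (hH : H ⊆ Q)
    (hom : ∀ x ∈ Q, x ∉ H → (∀ y ∈ H, G.Adj x y) ∨ (∀ y ∈ H, ¬ G.Adj x y))
    (hab : ∃ a ∈ H, ∃ b ∈ H, a ≠ b) : H = Q := by
  classical
  by_contra hne
  obtain ⟨a, ha, b, hb, hab⟩ := hab
  refine hQ.1 (hSUB V G Q H a ha hom ?_ ?_)
  · refine hQ.2 _ ⟨?_, fun h => ?_⟩
    · rintro x (rfl | hx)
      · exact hH ha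
      · exact hx.1
    · rcases h (hH hb) with h' | h'
      · exact hab h'.symm
      · exact h'.2 hb
  · have : Q ∩ H = H := Set.inter_eq_right.2 hH
    rw [this]
    exact hQ.2 _ (hH.ssubset_of_ne hne)

lemma cocon (hGLUE : G_GLUE) (hSUB : G_SUB) [Finite V] {G : SimpleGraph V} {Q : Set V}
    (hQ : MinImp G Q) : CoConn G Q := by
  classical
  intro P hP hPne hPQ
  by_contra hcon
  push Not at hcon
  -- P is homogeneous, Q \ P is homogeneous
  have h1 : ¬ ∃ a ∈ P, ∃ b ∈ P, a ≠ b := by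
    intro h
    refine hPQ (prime' hSUB hQ hP ?_ h)
    intro x hx hxP
    exact Or.inl fun y hy => (hcon y hy x hx hxP).symm
  have h2 : ¬ ∃ a ∈ Q \ P, ∃ b ∈ Q \ P, a ≠ b := by
    intro h
    have := prime' hSUB hQ (H := Q \ P) Set.sdiff_subset ?_ h
    · obtain ⟨p, hp⟩ := hPne
      have hp' : p ∈ Q \ P := by
        rw [this]
        exact hP hp
      exact hp'.2 hp
    · intro x hx hxP
      have hxP' : x ∈ P := by
        by_contra h'
        exact hxP ⟨hx, h'⟩
      exact Or.inl fun y hy => hcon x hxP' y hy.1 hy.2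
  push Not at h1 h2
  refine hQ.1 (hGLUE.2.1 V G Q ?_)
  intro x hx y hy hxy
  by_cases hxP : x ∈ P
  · by_cases hyP : y ∈ P
    · exact absurd (h1 x hxP y hyP) hxy
    · exact hcon x hxP y hy hyP
  · by_cases hyP : y ∈ P
    · exact (hcon y hyP x hx hxP).symm
    · exact absurd (h2 x ⟨hx, hxP⟩ y ⟨hy, hyP⟩) hxy

theorem goalMI (hGLUE : G_GLUE) (hCOB : G_COB) (hSUB : G_SUB) : G_MI := by
  refine ⟨fun V _ G M hM => exists_minImp G M hM, fun V _ G Q hQ => ⟨?_, ?_, ?_, ?_, ?_⟩⟩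
  · intro r hr s hs hrs
    exact dom hQ hr hs hrs
  · intro s hs
    exact simp' hGLUE hQ hs
  · intro H hH hom hab
    exact prime' hSUB hQ hH hom hab
  · exact cocon hGLUE hSUB hQ
  · intro C1 C2 h1 h2 hsub
    exact hQ.1 ((hCOB V G C1 C2 h1 h2).mono hsub)

end Pool.Agent.Helper79.SV
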